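import Mathlib

namespace Pool.Agent.Results.MP_21e947_nt.No

open Polynomial

/-- The quadrinomial `x^n + x^m + x^k + a` over the rationals. -/
noncomputable def f (n m k : ℕ) (a : ℚ) : ℚ[X] := X ^ n + X ^ m + X ^ k + C a

/-- Some complex number is a root of multiplicity at least two. -/
def HasMultipleRoot (p : ℚ[X]) : Prop :=
  ∃ θ : ℂ, 2 ≤ (p.map (algebraMap ℚ ℂ)).rootMultiplicity θ

theorem result : ¬ ∀ (a : ℚ) (n m k : ℕ), a ≠ 0 → n > m → m > k → k ≥ 1 →
    HasMultipleRoot (f n m k a) →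
    a = 1 ∧ ∃ d t u : ℕ, d ≥ 1 ∧ Odd t ∧ Odd u ∧ t > u ∧ u ≥ 1 ∧
      n = d * (t + u) ∧ m = d * t ∧ k = d * u := by
  intro h
  have key : HasMultipleRoot (f 45 43 42 (-2 ^ 42 / 3 ^ 45)) := by
    refine ⟨-2 / 3, ?_⟩
    have h0 : (f 45 43 42 (-2 ^ 42 / 3 ^ 45)).map (algebraMap ℚ ℂ) ≠ 0 := by
      intro e
      have := congrArg (eval 0) e
      norm_num [f] at this
    refine (one_lt_rootMultiplicity_iff_isRoot h0).mpr ⟨?_, ?_⟩
    · norm_num [f, IsRoot]
    · norm_num [f, IsRoot]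
  have := (h _ 45 43 42 (by norm_num) (by norm_num) (by norm_num) (by norm_num) key).1
  norm_num at this

end Pool.Agent.Results.MP_21e947_nt.No
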